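import Pool.Agent.MP_5f72fe_nt.H3.SpecC

/-! Enough cusp forms in the plus space. -/

namespace Pool.Agent.MP_5f72fe_nt.H27

open Complex Filter Topology Pool.Agent.MP_5f72fe_nt.H3
open scoped Real MatrixGroups PowerSeries UpperHalfPlane

theorem sm_add {c d : ℕ → ℂ} (hc : Sm c) (hd : Sm d) : Sm (c + d) := fun r h0 h1 => by
  refine Summable.of_nonneg_of_le (fun n => by positivity) (fun n => ?_)
    ((hc r h0 h1).add (hd r h0 h1))
  rw [← add_mul]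
  exact mul_le_mul_of_nonneg_right (norm_add_le _ _) (pow_nonneg h0 n)

theorem core (S : RowSER) (k : ℕ) {W : Type} [AddCommGroup W] [Module ℂ W]
    [FiniteDimensional ℂ W] (Φ : ℕ → ℂ → W →ₗ[ℂ] ℂ) (h0 : ∀ w, Ex 1 fun τ => Φ 0 τ w)
    (h1 : ∀ w, Ex (((1 + 2 * (k % 2) : ℕ) : ℝ) / (4 : ℕ)) fun τ => Φ 1 τ w)
    (law : ∀ (w : W) (τ : ℂ), 0 < τ.im → ∀ μ < 2, Φ μ (-1 / τ) w =
      I ^ (k + k % 2) * Jh τ ^ (2 * k + 1) * ((Φ 0 τ w + (-1) ^ μ * Φ 1 τ w) / (√2 : ℝ)))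
    (inj : ∀ w : W, (∀ τ : ℂ, 0 < τ.im → Φ 0 τ w = 0 ∧ Φ 1 τ w = 0) → w = 0) :
    ∃ h : Fin (Module.finrank ℂ W) → ℕ → ℂ, (∀ i, VL k (h i) ∧ h i 0 = 0) ∧
      LinearIndependent ℂ h := by
  have key : ∀ w : W, ∃ c : ℕ → ℂ, (VL k c ∧ c 0 = 0) ∧ ∀ μ < 2, Sm (par μ c) ∧
      ∀ τ : ℂ, 0 < τ.im → Φ μ τ w = ser 4 (par μ c) τ := by
    intro w
    obtain ⟨c, c1, c2, c3⟩ := S.toSer 4 4 (fun τ => Φ 0 τ w) (by norm_num)
      (by rw [div_self (by norm_num)]; exact h0 w)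
    obtain ⟨d, d1, d2, d3⟩ := S.toSer 4 (1 + 2 * (k % 2)) _ (by norm_num) (h1 w)
    have hc : ∀ n, n % 2 ≠ 0 → c n = 0 := fun n hn => by
      by_contra h; obtain ⟨t, ht⟩ := c2 n h; omega
    have hd : ∀ n, n % 2 ≠ 1 → d n = 0 := fun n hn => by
      by_contra h; obtain ⟨t, ht⟩ := d2 n h; omega
    have p0 : par 0 (c + d) = c := by
      funext n
      by_cases h : n % 2 = 0
      · simp [par, h, hd n (by omega)]
      · simp [par, h, hc n h]
    have p1 : par 1 (c + d) = d := by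
      funext n
      by_cases h : n % 2 = 1
      · simp [par, h, hc n (by omega)]
      · simp [par, h, hd n h]
    have hp : ∀ μ < 2, Sm (par μ (c + d)) ∧
        ∀ τ : ℂ, 0 < τ.im → Φ μ τ w = ser 4 (par μ (c + d)) τ := by
      intro μ hμ
      interval_cases μ
      · rw [p0]; exact ⟨c1, c3⟩
      · rw [p1]; exact ⟨d1, d3⟩
    refine ⟨c + d, ⟨⟨sm_add c1 d1, fun n hn => ?_, fun τ hτ μ hμ => ?_⟩, ?_⟩, hp⟩
    · by_cases h : c n = 0
      · obtain ⟨t, ht⟩ := d2 n fun e => hn (by simp [h, e])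
        omega
      · obtain ⟨t, ht⟩ := c2 n h
        omega
    · have hτ' : 0 < (-1 / τ).im := by
        have : τ ≠ 0 := by rintro rfl; simp at hτ
        simpa [div_eq_mul_inv, neg_div] using div_pos hτ (normSq_pos.2 this)
      rw [Nat.cast_one, one_mul, ← (hp μ hμ).2 _ hτ', ← (hp 0 (by norm_num)).2 _ hτ,
        ← (hp 1 (by norm_num)).2 _ hτ]
      exact law w τ hτ μ hμ
    · have : c 0 = 0 := by
        by_contra h; obtain ⟨t, ht⟩ := c2 0 h; omega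
      simp [this, hd 0 (by norm_num)]
  choose c hc hc' using key
  let b := Module.finBasis ℂ W
  refine ⟨fun i => c (b i), fun i => hc _, Fintype.linearIndependent_iff.2 fun g hg => ?_⟩
  refine Fintype.linearIndependent_iff.1 b.linearIndependent g (inj _ fun τ hτ => ?_)
  have : ∀ μ < 2, Φ μ τ (∑ i, g i • b i) = 0 := by
    intro μ hμ
    simp only [map_sum, map_smul, smul_eq_mul]
    simp only [(hc' _ μ hμ).2 τ hτ, ser, ← tsum_mul_left]
    rw [← Summable.tsum_finsetSum fun i _ =>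
      ((S.nsum 4 _ τ (by norm_num) (hc' _ μ hμ).1 hτ).of_norm).mul_left _]
    refine (tsum_congr fun n => ?_).trans tsum_zero
    have h := congrFun hg n
    simp only [Finset.sum_apply, Pi.smul_apply, smul_eq_mul, Pi.zero_apply] at h
    simp only [← mul_assoc, ← Finset.sum_mul, par]
    split_ifs
    · rw [h, zero_mul]
    · simp
  exact ⟨this 0 (by norm_num), this 1 (by norm_num)⟩

/-- evaluation -/
noncomputable def ev (w : ℤ) (τ : ℂ) : ModularForm 𝒮ℒ w →ₗ[ℂ] ℂ where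
  toFun f := f (UpperHalfPlane.ofComplex τ)
  map_add' _ _ := rfl
  map_smul' _ _ := rfl

theorem ev_ser (S : RowSER) (w : ℤ) (f : ModularForm 𝒮ℒ w) {τ : ℂ} (hτ : 0 < τ.im) :
    ev w τ f = ser 1 (aF f) τ := by
  have := (S.mf w f).2.1 ⟨τ, hτ⟩
  rw [← UpperHalfPlane.ofComplex_apply_of_im_pos hτ] at this
  refine this.trans ?_
  rw [UpperHalfPlane.ofComplex_apply_of_im_pos hτ]

theorem ev_law (S : RowSER) (w : ℤ) (f : ModularForm 𝒮ℒ w) {τ : ℂ} (hτ : 0 < τ.im) :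
    ev w (-1 / τ) f = τ ^ w * ev w τ f := by
  have hτ' : 0 < (-1 / τ).im := by
    have : τ ≠ 0 := by rintro rfl; simp at hτ
    simpa [div_eq_mul_inv, neg_div] using div_pos hτ (normSq_pos.2 this)
  rw [ev_ser S w f hτ, ev_ser S w f hτ']
  exact (S.mf w f).2.2 τ hτ

theorem ev_ex (S : RowSER) (w : ℤ) (f : ModularForm 𝒮ℒ w) :
    Ex 0 (fun τ => ev w τ f) ∧ Ld 0 (fun τ => ev w τ f) (aF f 0) := by
  have h := S.ex 1 0 (aF f) one_pos (S.mf w f).1 fun n _ => ⟨n, by simp⟩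
  rw [Nat.cast_zero, zero_div] at h
  refine ⟨S.exCongr _ _ _ (fun τ hτ => (ev_ser S w f hτ).symm) h.1, h.2.congr' ?_⟩
  filter_upwards [preimage_mem_comap (eventually_gt_atTop (0 : ℝ))] with τ hτ
  rw [ev_ser S w f hτ]

/-- the combination -/
noncomputable def cmb (a b : ℤ) (X Y : ℕ → ℂ → ℂ) (μ : ℕ) (τ : ℂ) :
    (ModularForm 𝒮ℒ a × ModularForm 𝒮ℒ b) →ₗ[ℂ] ℂ :=
  X μ τ • (ev a τ).comp (LinearMap.fst ℂ _ _) + Y μ τ • (ev b τ).comp (LinearMap.snd ℂ _ _)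

theorem cmb_apply (a b : ℤ) (X Y : ℕ → ℂ → ℂ) (μ : ℕ) (τ : ℂ)
    (w : ModularForm 𝒮ℒ a × ModularForm 𝒮ℒ b) :
    cmb a b X Y μ τ w = X μ τ * ev a τ w.1 + Y μ τ * ev b τ w.2 := rfl

theorem cmb_ex (S : RowSER) (a b : ℤ) {X Y : ℕ → ℂ → ℂ} {μ : ℕ} {ρ : ℝ} (hX : Ex ρ (X μ))
    (hY : Ex ρ (Y μ)) (w : ModularForm 𝒮ℒ a × ModularForm 𝒮ℒ b) :
    Ex ρ fun τ => cmb a b X Y μ τ w := by
  have h := S.exAdd _ _ _ 1 1 (S.exMul _ _ _ _ hX (ev_ex S a w.1).1)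
    (S.exMul _ _ _ _ hY (ev_ex S b w.2).1)
  simpa only [add_zero, one_mul, cmb_apply] using h

theorem cmb_inj (a b : ℤ) {X Y : ℕ → ℂ → ℂ}
    (hd : ∀ τ : ℂ, 0 < τ.im → X 0 τ * Y 1 τ - X 1 τ * Y 0 τ ≠ 0)
    (w : ModularForm 𝒮ℒ a × ModularForm 𝒮ℒ b)
    (h : ∀ τ : ℂ, 0 < τ.im → cmb a b X Y 0 τ w = 0 ∧ cmb a b X Y 1 τ w = 0) : w = 0 := by
  have key : ∀ z : ℍ, w.1 z = 0 ∧ w.2 z = 0 := by
    intro z
    obtain ⟨h0, h1⟩ := h z z.im_pos
    have e1 : ev a z w.1 = w.1 z := congrArg w.1 (UpperHalfPlane.ofComplex_apply z)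
    have e2 : ev b z w.2 = w.2 z := congrArg w.2 (UpperHalfPlane.ofComplex_apply z)
    rw [cmb_apply, e1, e2] at h0 h1
    constructor <;> refine mul_left_cancel₀ (hd z z.im_pos) ?_
    · linear_combination Y 1 z * h0 - Y 0 z * h1
    · linear_combination X 0 z * h1 - X 1 z * h0
  exact Prod.ext (ModularForm.ext fun z => (key z).1) (ModularForm.ext fun z => (key z).2)

theorem dimM (w : ℤ) (n : ℕ) (h : w = n) (hn : n % 2 = 0) :
    Module.finrank ℂ (ModularForm 𝒮ℒ w) = if n % 12 = 2 then n / 12 else n / 12 + 1 := by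
  subst h
  have := ModularForm.dimension_level_one n (Nat.even_iff.2 hn)
  refine Module.finrank_eq_of_rank_eq (this.trans ?_)
  simp only [Nat.ModEq]
  split_ifs <;> simp

theorem dimS (k : ℕ) (hk : 6 ≤ k) : Module.finrank ℂ (CuspForm 𝒮ℒ (2 * k : ℕ)) =
    if (2 * k - 12) % 12 = 2 then (2 * k - 12) / 12 else (2 * k - 12) / 12 + 1 :=
  CuspForm.discriminantEquiv.finrank_eq.trans (dimM _ _ (by omega) (by omega))

/-- the constant term -/
noncomputable def ct (w : ℤ) : ModularForm 𝒮ℒ w →ₗ[ℂ] ℂ where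
  toFun f := aF f 0
  map_add' f g := by
    simp only [aF, FunLike.coe_add, ModularForm.qExpansion_add one_pos one_mem_strictPeriods_SL,
      map_add]
  map_smul' a f := by
    simp only [aF, FunLike.coe_smul, ModularForm.qExpansion_smul one_pos one_mem_strictPeriods_SL,
      PowerSeries.coeff_smul, RingHom.id_apply]

theorem pw_eq (J : RowJH) (k : ℕ) (τ : ℂ) : I ^ k * Jh τ ^ (2 * k + 1) = τ ^ k * Jh τ := by
  rw [pow_succ, pow_mul, J.sq, ← mul_assoc, ← mul_pow]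
  congr 2
  linear_combination (-τ) * I_mul_I

theorem rowVDIM : OfVDIM := by
  intro S J T B N k hk
  obtain ⟨R, hR, -⟩ := S.ring
  have sT : ∀ μ < 2, Tm μ ∈ R := fun μ h => (hR _).2 (B.sm.1 μ h)
  have t0 := sT 0 (by norm_num)
  have t1 := sT 1 (by norm_num)
  have sH : ∀ μ < 2, Sm (cz (Hm μ)) := fun μ h => (hR _).1 (R.mul_mem (sT μ h) (R.sub_mem
    (R.pow_mem (sT μ h) 4) (R.mul_mem (natCast_mem R 5) (R.pow_mem (sT _ (by omega)) 4))))
  have sD : Sm (cz D6) := (hR _).1 (R.mul_mem (R.mul_mem t0 t1)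
    (R.sub_mem (R.pow_mem t0 4) (R.pow_mem t1 4)))
  have ex : ∀ (r : ℕ) (ρ : ℝ) (F : ℤ⟦X⟧), (r : ℝ) / (12 : ℕ) = ρ → Sm (cz F) → Sup 12 r F →
      Ex ρ (sr F) ∧ Ld ρ (sr F) (cz F r) := fun r ρ F e h1 h2 =>
    e ▸ S.ex 12 r _ (by norm_num) h1 fun n hn => h2 n fun h => hn (by simp [cz, h])
  have eT0 := ex 0 0 _ (by norm_num) (B.sm.1 0 (by norm_num)) T.supT.1
  have eT1 := ex 3 (1 / 4) _ (by norm_num) (B.sm.1 1 (by norm_num)) T.supT.2.1
  have eH0 := ex 0 0 _ (by norm_num) (sH 0 (by norm_num)) T.supH.1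
  have eH1 := ex 3 (1 / 4) _ (by norm_num) (sH 1 (by norm_num)) T.supH.2
  have eD := ex 3 (1 / 4) _ (by norm_num) sD T.supD.1
  have hS := dimS k hk
  rcases Nat.mod_two_eq_zero_or_one k with h2 | h2
  · let l : (ModularForm 𝒮ℒ (k : ℤ) × ModularForm 𝒮ℒ ((k : ℤ) - 2)) →ₗ[ℂ] ℂ :=
      cz (Tm 0) 0 • (ct _).comp (LinearMap.fst ℂ _ _) +
        cz (Hm 0) 0 • (ct _).comp (LinearMap.snd ℂ _ _)
    let X : ℕ → ℂ → ℂ := fun μ => sr (Tm μ)
    let Y : ℕ → ℂ → ℂ := fun μ => sr (Hm μ)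
    refine Exists.elim (core S k (W := LinearMap.ker l)
      (fun μ τ => (cmb k (k - 2) X Y μ τ).comp (LinearMap.ker l).subtype) (fun w => ?_)
      (fun w => ?_) (fun w τ hτ μ hμ => ?_) fun w hw => Subtype.ext (cmb_inj _ _ (X := X) (Y := Y)
        (fun τ hτ => (N.det τ hτ).trans_ne (mul_ne_zero (by norm_num) (N.neD τ hτ))) _ hw))
      fun h hh => ?_
    rotate_right
    · refine ⟨_, h, hh.1, hh.2, ?_⟩
      have d1 := l.finrank_range_add_finrank_ker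
      have d2 : Module.finrank ℂ (LinearMap.range l) ≤ 1 :=
        (Submodule.finrank_le _).trans (Module.finrank_self ℂ).le
      rw [Module.finrank_prod, dimM k k rfl h2, dimM (k - 2) (k - 2) (by omega) (by omega)] at d1
      rw [hS]
      split_ifs at d1 ⊢ <;> omega
    · have h := S.exUp 0 _ (cmb_ex S _ _ (X := X) (Y := Y) (μ := 0) eT0.1 eH0.1 w.1) (by
        have a1 := S.ldMul _ _ _ _ _ _ eT0.2 (ev_ex S _ w.1.1).2
        have a2 := S.ldMul _ _ _ _ _ _ eH0.2 (ev_ex S _ w.1.2).2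
        have a3 := Tendsto.add a1 a2
        have a4 : cz (Tm 0) 0 * aF w.1.1 0 + cz (Hm 0) 0 * aF w.1.2 0 = 0 := w.2
        rw [a4, add_zero] at a3
        exact a3.congr fun τ => (add_mul _ _ _).symm)
      rwa [zero_add] at h
    · have e : (((1 + 2 * (k % 2) : ℕ) : ℝ) / (4 : ℕ)) = 1 / 4 := by rw [h2]; norm_num
      rw [e]
      exact cmb_ex S _ _ (X := X) (Y := Y) (μ := 1) eT1.1 eH1.1 w.1
    · have h0 : τ ≠ 0 := by rintro rfl; simp at hτ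
      have hu : τ ^ ((k : ℤ) - 2) * τ ^ 2 = τ ^ k := by
        rw [zpow_sub₀ h0, zpow_natCast, zpow_ofNat]; field_simp
      have hj : Jh τ ^ 4 = -τ ^ 2 := by
        rw [show 4 = 2 * 2 from rfl, pow_mul, J.sq]; linear_combination τ ^ 2 * I_mul_I
      simp only [LinearMap.comp_apply, Submodule.subtype_apply, cmb_apply, X, Y, ev_law S _ _ hτ,
        B.lawT τ hτ μ hμ, N.lawH τ hτ μ hμ, h2, add_zero, pw_eq J, zpow_natCast]
      rw [← hu, pow_succ (Jh τ) 4, hj]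
      ring
  · let D : ℂ → ℂ := fun τ => sr D6 τ * sr D6 τ * sr D6 τ
    have eD3 : Ex (1 / 4 + 1 / 4 + 1 / 4) D := S.exMul _ _ _ _ (S.exMul _ _ _ _ eD.1 eD.1) eD.1
    let Z : (ℕ → ℤ⟦X⟧) → ℕ → ℂ → ℂ := fun F μ τ =>
      if μ = 0 then D τ * sr (F 1) τ else -(D τ * sr (F 0) τ)
    have z0 : ∀ F : ℕ → ℤ⟦X⟧, Ex (1 / 4) (sr (F 1)) → Ex 1 (Z F 0) := fun F h => by
      have := S.exMul _ _ _ _ eD3 h
      rwa [show (1 / 4 + 1 / 4 + 1 / 4 + 1 / 4 : ℝ) = 1 by norm_num] at this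
    have z1 : ∀ F : ℕ → ℤ⟦X⟧, Ex 0 (sr (F 0)) →
        Ex (((1 + 2 * (k % 2) : ℕ) : ℝ) / (4 : ℕ)) (Z F 1) := fun F h => by
      have h3 := S.exMul _ _ _ _ eD3 h
      have e : (((1 + 2 * (k % 2) : ℕ) : ℝ) / (4 : ℕ)) = 1 / 4 + 1 / 4 + 1 / 4 + 0 := by
        rw [h2]; norm_num
      rw [e]
      exact S.exCongr _ _ _ (fun τ _ => by simp [Z]) (S.exAdd _ _ _ (-1) 0 h3 h3)
    refine Exists.elim (core S k (cmb (k - 11) (k - 9) (Z Hm) (Z Tm))
      (cmb_ex S _ _ (z0 _ eH1.1) (z0 _ eT1.1)) (cmb_ex S _ _ (z1 _ eH0.1) (z1 _ eT0.1))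
      (fun w τ hτ μ hμ => ?_) (cmb_inj _ _ fun τ hτ h => ?_)) fun h hh => ?_
    rotate_right
    · refine ⟨_, h, hh.1, hh.2, ?_⟩
      rw [Module.finrank_prod, hS]
      by_cases h11 : 11 ≤ k
      · rw [dimM (k - 11) (k - 11) (by omega) (by omega), dimM (k - 9) (k - 9) (by omega) (by omega)]
        split_ifs <;> omega
      · by_cases h9 : 9 ≤ k
        · rw [dimM (k - 9) (k - 9) (by omega) (by omega)]
          split_ifs <;> omega
        · split_ifs <;> omega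
    · have h0 : τ ≠ 0 := by rintro rfl; simp at hτ
      have hu : τ ^ ((k : ℤ) - 11) * τ ^ 11 = τ ^ k := by
        rw [zpow_sub₀ h0, zpow_natCast, zpow_ofNat]; field_simp
      have hv : τ ^ ((k : ℤ) - 9) = τ ^ ((k : ℤ) - 11) * τ ^ 2 := by
        rw [← zpow_ofNat, ← zpow_add₀ h0]; congr 1; ring
      have hj : Jh τ ^ 4 = -τ ^ 2 := by
        rw [show 4 = 2 * 2 from rfl, pow_mul, J.sq]; linear_combination τ ^ 2 * I_mul_I
      have hD : D (-1 / τ) = -I * τ ^ 9 * D τ := by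
        have : Jh τ ^ 18 = -I * τ ^ 9 := by
          rw [show 18 = 4 * 4 + 2 from rfl, pow_add, pow_mul, hj, J.sq]; ring
        simp only [D, N.lawD τ hτ]
        rw [← this]; ring
      have hp : I ^ (k + 1) * Jh τ ^ (2 * k + 1) = I * (τ ^ k * Jh τ) := by
        rw [← pw_eq J]; ring
      simp only [cmb_apply, Z, ev_law S _ _ hτ, hD, B.lawT τ hτ 0 (by norm_num),
        B.lawT τ hτ 1 (by norm_num), N.lawH τ hτ 0 (by norm_num), N.lawH τ hτ 1 (by norm_num),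
        h2, hp]
      rw [← hu, hv, pow_succ (Jh τ) 4, hj]
      interval_cases μ <;> simp only [if_true, one_ne_zero, if_false] <;> ring
    · have h1 := N.det τ hτ
      have h3 := N.neD τ hτ
      simp only [Z, D, if_true, one_ne_zero, if_false] at h
      apply pow_ne_zero 7 h3
      linear_combination (1 / 6) * h + (1 / 6) * sr D6 τ ^ 6 * h1

end Pool.Agent.MP_5f72fe_nt.H27
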